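import Pool.Agent.H92.LE.Base

/-!
# The base of the lifting theorem, with several clauses at a time
-/

namespace Pool.Agent.H35.CL

open Finset
open Pool.Agent.H92.LE (HF hf_fam)

theorem hf_flex_set {m M : ℕ} {S : Fin M → Finset (Fin m)} {σ : Fin M → Fin m → Bool} {s w : ℕ} (C : Finset (Fin M))
    (hC : C.card ≤ s) : Flex (HF S σ s w) (fun z => ∃ c ∈ C, ∀ j ∈ S c, z j = σ c j) := by
  intro D ρ h
  obtain ⟨z, h1, h2⟩ := h.2 C hC
  refine ⟨z, h1, ?_⟩
  rintro ⟨c, hc, h3⟩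
  obtain ⟨i, hi, hne⟩ := h2 c hc
  exact hne (h3 i hi)

/-- Unsatisfiable 3-CNFs with `m` variables and `8 m` clauses and a family of width `m / b`. -/
theorem base_exists_set : ∃ b : ℕ, 1 ≤ b ∧ ∀ m : ℕ, b ≤ m → ∃ (S : Fin (8 * m) → Finset (Fin m))
    (σ : Fin (8 * m) → Fin m → Bool) (H : Finset (Fin m) → (Fin m → Bool) → Prop),
    (∀ c, (S c).card ≤ 3) ∧ (∀ z : Fin m → Bool, ∃ c, ∀ j ∈ S c, z j = σ c j) ∧ Fam H (m / b) ∧
    ∀ C : Finset (Fin (8 * m)), C.card ≤ m / b → Flex H (fun z => ∃ c ∈ C, ∀ j ∈ S c, z j = σ c j) := by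
  classical
  obtain ⟨A, hA⟩ : ∃ A : ℕ, A = (96 * 3) ^ 2 * 8 := ⟨_, rfl⟩
  obtain ⟨a, ha⟩ : ∃ a : ℕ, a = 32 * 3 * A ^ 4 := ⟨_, rfl⟩
  have ha1 : 12 * 3 * A ^ 2 + 1 < a := by
    rw [ha, hA]
    norm_num
  refine ⟨16 * a, by omega, fun m hm => ?_⟩
  obtain ⟨B, hB⟩ : ∃ B : ℕ, B = m / a := ⟨_, rfl⟩
  have ha0 : 0 < a := by omega
  have hBa : a * B ≤ m := by rw [hB]; exact Nat.mul_div_le m a
  have h16B : 16 ≤ B := by
    rw [hB, Nat.le_div_iff_mul_le ha0]
    omega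
  have e1 := H33RP.exp_count (n := m) (k := 3) (m := 8 * m) (Δ := 8) (B := B) (le_refl _) (by norm_num) (by omega)
    (le_refl _) (by rw [← hA, ← ha]; exact hBa)
  have e2 := H62RC.unsat_count (n := m) (k := 3) (m := 8 * m) (by omega) (by omega)
  rw [← hA] at e1
  obtain ⟨K, hK⟩ : ∃ K : ℕ, K = Fintype.card (LovaszSchrijver.KClause m 3) ^ (8 * m) := ⟨_, rfl⟩
  have hKpos : 0 < K := by
    rw [hK]
    refine Nat.pow_pos (Fintype.card_pos_iff.2 ⟨?_⟩)
    exact ⟨⟨fun i => ⟨i.1, by omega⟩, fun i j h => by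
      have := congrArg Fin.val h
      exact Fin.ext this⟩, fun _ => true⟩
  rw [← hK] at e1 e2
  obtain ⟨X, hX⟩ : ∃ X, X = (Finset.univ.filter (fun Φ : Fin (8 * m) → LovaszSchrijver.KClause m 3 =>
      ¬ H33RP.Exp (H33RP.SS Φ) B)) := ⟨_, rfl⟩
  obtain ⟨Y, hY⟩ : ∃ Y, Y = (Finset.univ.filter (fun Φ : Fin (8 * m) → LovaszSchrijver.KClause m 3 =>
      LovaszSchrijver.Satisfiable Φ)) := ⟨_, rfl⟩
  have hXY : (X ∪ Y).card < (Finset.univ : Finset (Fin (8 * m) → LovaszSchrijver.KClause m 3)).card := by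
    have hcard : (Finset.univ : Finset (Fin (8 * m) → LovaszSchrijver.KClause m 3)).card = K := by
      rw [Finset.card_univ, Fintype.card_fun, Fintype.card_fin, hK]
    rw [hcard]
    have e1' : m * X.card ≤ 12 * 3 * A ^ 2 * K := by
      rw [hX]
      convert e1 using 2
    have e2' : m * Y.card ≤ K := by
      rw [hY]
      convert e2 using 2
    have h3 : m * (X ∪ Y).card < m * K := by
      calc m * (X ∪ Y).card ≤ m * (X.card + Y.card) := Nat.mul_le_mul_left m (Finset.card_union_le _ _)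
        _ = m * X.card + m * Y.card := by ring
        _ ≤ 12 * 3 * A ^ 2 * K + K := Nat.add_le_add e1' e2'
        _ = (12 * 3 * A ^ 2 + 1) * K := by ring
        _ < m * K := Nat.mul_lt_mul_of_pos_right (by omega) hKpos
    exact lt_of_mul_lt_mul_left h3 (Nat.zero_le m)
  obtain ⟨Φ, -, hΦ⟩ := Finset.exists_mem_notMem_of_card_lt_card hXY
  have hE : H33RP.Exp (H33RP.SS Φ) B := by
    by_contra h
    refine hΦ (Finset.mem_union_left _ ?_)
    rw [hX]
    exact Finset.mem_filter.2 ⟨Finset.mem_univ _, h⟩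
  have hU : ¬ LovaszSchrijver.Satisfiable Φ := by
    intro h
    refine hΦ (Finset.mem_union_right _ ?_)
    rw [hY]
    exact Finset.mem_filter.2 ⟨Finset.mem_univ _, h⟩
  obtain ⟨σ, hσ⟩ : ∃ σ : Fin (8 * m) → Fin m → Bool, ∀ c i, σ c ((Φ c).1 i) = !((Φ c).2 i) := by
    refine ⟨fun c j => decide (¬ ∃ i, (Φ c).1 i = j ∧ (Φ c).2 i = true), fun c i => ?_⟩
    cases h : (Φ c).2 i with
    | true => exact decide_eq_false (not_not.2 ⟨i, rfl, h⟩)
    | false =>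
      refine decide_eq_true ?_
      rintro ⟨i', h1, h2⟩
      rw [(Φ c).1.injective h1, h] at h2
      exact Bool.false_ne_true h2
  have hSS : ∀ c j, j ∈ H33RP.SS Φ c ↔ ∃ i, (Φ c).1 i = j := by
    intro c j
    unfold H33RP.SS
    simp
  have h16 : m / (16 * a) = B / 16 := by
    rw [hB, mul_comm 16 a, Nat.div_div_eq_div_mul]
  refine ⟨H33RP.SS Φ, σ, HF (H33RP.SS Φ) σ (B / 2) (m / (16 * a)), fun c => ?_, fun z => ?_, ?_, fun C hC => ?_⟩
  · unfold H33RP.SS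
    refine Finset.card_image_le.trans ?_
    rw [Finset.card_univ, Fintype.card_fin]
  · by_contra hn
    push Not at hn
    refine hU ⟨z, fun c => ?_⟩
    obtain ⟨j, hj, hne⟩ := hn c
    obtain ⟨i, rfl⟩ := (hSS c j).1 hj
    refine ⟨_, ⟨i, rfl⟩, ?_⟩
    rw [hσ] at hne
    show z ((Φ c).1 i) = (Φ c).2 i
    revert hne
    cases z ((Φ c).1 i) <;> cases (Φ c).2 i <;> decide
  · refine hf_fam hE (Nat.mul_div_le B 2) ?_
    omega
  · exact hf_flex_set C (by omega)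

end Pool.Agent.H35.CL
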