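import Pool.Agent.H35.CK.Re
import Pool.Agent.H35.CK.Ba
import Pool.Agent.H35.CL.Final
import Pool.Agent.H1.CL.UnyJ
import Pool.Agent.H87.LF.Core

/-!
# The lower bound for all `K` up to a power of `N`
-/

namespace Pool.Agent.H35.CL

open Finset

theorem root_exists (k N : ℕ) (hk : 0 < k) (hN : 0 < N) : ∃ u : ℕ, u ^ k ≤ N ∧ N < (u + 1) ^ k := by
  classical
  have hex : ∃ v : ℕ, N < (v + 1) ^ k := ⟨N, lt_of_lt_of_le (Nat.lt_succ_self N) (Nat.le_self_pow hk.ne' _)⟩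
  refine ⟨Nat.find hex, ?_, Nat.find_spec hex⟩
  rcases Nat.eq_zero_or_pos (Nat.find hex) with h0 | h0
  · rw [h0, zero_pow hk.ne']
    exact Nat.zero_le _
  · have h1 := Nat.find_min hex (m := Nat.find hex - 1) (by omega)
    rw [not_lt, Nat.sub_add_cancel h0] at h1
    exact h1

theorem le_root {k N u x : ℕ} (h : N < (u + 1) ^ k) (hx : x ^ k ≤ N) : x ≤ u := by
  by_contra hcon
  have h1 : (u + 1) ^ k ≤ x ^ k := Nat.pow_le_pow_left (by omega) k
  omega

/-- The final count. -/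
theorem count_num {K N S u C p x : ℕ} (hC : 0 < C) (hu4 : 4 ≤ u) (hN : N ≤ u ^ p) (hx : p * K ≤ x * C)
    (h : u ^ (x + 1) < 4 * S) : (N : ℝ) ^ ((K : ℝ) / C) ≤ S := by
  have hu0 : (0 : ℝ) < u := by exact_mod_cast (by omega : 0 < u)
  have hu1 : (1 : ℝ) ≤ u := by exact_mod_cast (by omega : 1 ≤ u)
  have h2 : (N : ℝ) ≤ (u : ℝ) ^ (p : ℝ) := by
    rw [Real.rpow_natCast]
    exact_mod_cast hN
  have hCR : (0 : ℝ) < C := by exact_mod_cast hC
  have h3 : (p : ℝ) * ((K : ℝ) / C) ≤ x := by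
    rw [← mul_div_assoc, div_le_iff₀ hCR]
    exact_mod_cast hx
  have h5 : u ^ x ≤ S := by
    rw [pow_succ'] at h
    have h7 : 4 * u ^ x ≤ u * u ^ x := Nat.mul_le_mul_right _ hu4
    omega
  calc (N : ℝ) ^ ((K : ℝ) / C) ≤ ((u : ℝ) ^ (p : ℝ)) ^ ((K : ℝ) / C) :=
        Real.rpow_le_rpow (Nat.cast_nonneg _) h2 (by positivity)
    _ = (u : ℝ) ^ ((p : ℝ) * ((K : ℝ) / C)) := by rw [← Real.rpow_mul hu0.le]
    _ ≤ (u : ℝ) ^ (x : ℝ) := Real.rpow_le_rpow_of_exponent_le hu1 h3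
    _ = ((u ^ x : ℕ) : ℝ) := by rw [Real.rpow_natCast, Nat.cast_pow]
    _ ≤ S := by exact_mod_cast h5

theorem unary_clique_wide : ∃ C : ℕ, 0 < C ∧ ∀ K N : ℕ, C ≤ K → K ^ C ≤ N →
    ∃ (G : SimpleGraph (Fin K × Fin N)) (A : Finset (Fin K)), (∀ i a b, ¬ G.Adj (i, a) (i, b)) ∧ G.CliqueFree K ∧
      (∀ S R, ResolutionOf (KClique G K) S R → (N : ℝ) ^ ((K : ℝ) / C) ≤ S) ∧
      (∀ q r S c b, C * r ≤ K → ((q + 1) * 2 ^ r) ^ C ≤ N → CuttingPlanesWith (KClique G K) q r S c b →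
        (N : ℝ) ^ ((K : ℝ) / C) ≤ S) ∧
      ∀ (W : Submodule ℝ ((Fin K → Fin N) → ℝ)) q r S f, C * r ≤ K → ((Module.finrank ℝ W * q + 1) * 2 ^ r) ^ C ≤ N →
        SemiRefutation G A W q r S f → (N : ℝ) ^ ((K : ℝ) / C) ≤ S := by
  classical
  obtain ⟨b, hb, hbase⟩ := base_exists_set
  obtain ⟨C, hC⟩ : ∃ C : ℕ, C = 6000000 * b := ⟨_, rfl⟩
  have hC0 : 0 < C := by omega
  refine ⟨C, hC0, fun K N hCK hKN => ?_⟩
  obtain ⟨m, hm⟩ : ∃ m, m = K / 16 := ⟨_, rfl⟩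
  have hmb : b ≤ m := by omega
  have hm0 : 0 < m := by omega
  have hK0 : 0 < K := by omega
  have hKpow : ∀ i : ℕ, i ≤ C → K ^ i ≤ N := fun i hi => (Nat.pow_le_pow_right hK0 hi).trans hKN
  have hN0 : 0 < N := lt_of_lt_of_le (Nat.pow_pos hK0) hKN
  obtain ⟨u, hu1, hu2⟩ := root_exists 600 N (by norm_num) hN0
  have hNu : 4 ≤ u → N ≤ u ^ 1200 := by
    intro h4
    have h5 : u + 1 ≤ u * u := by
      calc u + 1 ≤ 4 * u := by omega
        _ ≤ u * u := Nat.mul_le_mul_right _ h4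
    calc N ≤ (u + 1) ^ 600 := hu2.le
      _ ≤ (u * u) ^ 600 := Nat.pow_le_pow_left h5 600
      _ = u ^ 1200 := by rw [← pow_two, ← pow_mul]
  have hmu : (4 * m) ^ 10000 ≤ u := by
    refine le_root hu2 ?_
    rw [← pow_mul]
    exact (Nat.pow_le_pow_left (by omega) _).trans (hKpow _ (by omega))
  have hu4 : 4 ≤ u := by
    refine le_trans ?_ hmu
    calc 4 ≤ (4 * m) ^ 1 := by rw [pow_one]; omega
      _ ≤ (4 * m) ^ 10000 := Nat.pow_le_pow_right (by omega) (by norm_num)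
  obtain ⟨V, σ, H, hV, hun, hfam, hflex⟩ := hbase m hmb
  obtain ⟨g, hg⟩ := Pool.Agent.LF.core_lower (ι := Fin m) (α := Fin (u ^ 200)) (u := u) (by rw [Fintype.card_fin])
    (by rw [Fintype.card_fin]; exact hm0) (by rw [Fintype.card_fin]; exact hmu)
  have : Nonempty (Fin (u ^ 200)) := ⟨⟨0, Nat.pow_pos (by omega)⟩⟩
  obtain ⟨G, A, enc, e, h1, h2, h3, h4, -, h5⟩ := exists_cnfGraph (K := K) (N := N) (w := 3) (α := Fin (u ^ 200)) V σ hV hun
    (by rw [Fintype.card_fin]; omega) (by rw [Fintype.card_fin, ← pow_mul]; exact hu1) (fun _ => g)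
  obtain ⟨f, hf⟩ : ∃ f, f = m / b / 4 := ⟨_, rfl⟩
  have hfK : K < 64 * b * (f + 1) := by
    have e1 : f = K / (64 * b) := by
      rw [hf, hm, Nat.div_div_eq_div_mul, Nat.div_div_eq_div_mul]
      congr 1
      ring
    rw [e1]
    exact Nat.lt_mul_div_succ K (by omega)
  have hfm : f + 1 ≤ m := by
    have e1 : m / b / 4 ≤ m / 4 := Nat.div_le_div_right (Nat.div_le_self _ _)
    omega
  -- two numbers whose squares are at most `N`
  have hsq : ∀ x y : ℕ, x ^ 2 ≤ N → y ^ 2 ≤ N → x * y ≤ N := by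
    intro x y hx hy
    rw [← Nat.pow_le_pow_iff_left (n := 2) (by norm_num), mul_pow, pow_two N]
    exact Nat.mul_le_mul hx hy
  have main : ∀ q r S F, C * r ≤ 2 * K → ((q + 1) * 2 ^ r) ^ (3 * 1200) ≤ N → LocalRefutation G A q r S F →
      (N : ℝ) ^ ((K : ℝ) / C) ≤ S := by
    intro q r S F hr hqN hF
    have hF' := hF.mono (Nat.le_succ q)
    have hrm : r / 2 ≤ m / b := by
      rw [hm, Nat.div_div_eq_div_mul, Nat.le_div_iff_mul_le (by omega)]
      have e1 : r / 2 * 2 ≤ r := Nat.div_mul_le_self _ _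
      have e2 : (r / 2 * (16 * b)) * 2 ≤ 2 * K := by
        calc (r / 2 * (16 * b)) * 2 = (r / 2 * 2) * (16 * b) := by ring
          _ ≤ r * (16 * b) := Nat.mul_le_mul_right _ e1
          _ ≤ r * C := Nat.mul_le_mul_left _ (by omega)
          _ = C * r := mul_comm _ _
          _ ≤ 2 * K := hr
      omega
    obtain ⟨a, b', hstep, hlast⟩ := local_triangles (w := 3) hV (fun D hD => hflex D (by omega)) h3 h4 h5 hF'
    have hqu : 2 ^ (3 * (r / 2) + 3) * (q + 1) ≤ u := by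
      refine le_root hu2 ?_
      have e1 : 2 ^ (3 * (r / 2) + 3) * (q + 1) ≤ ((q + 1) * 2 ^ r) ^ 2 * 8 := by
        have e2 : 3 * (r / 2) ≤ 2 * r := by omega
        calc 2 ^ (3 * (r / 2) + 3) * (q + 1) = 2 ^ (3 * (r / 2)) * (q + 1) * 8 := by ring
          _ ≤ 2 ^ (2 * r) * (q + 1) ^ 2 * 8 := by
            refine Nat.mul_le_mul_right _ (Nat.mul_le_mul (Nat.pow_le_pow_right (by norm_num) e2) ?_)
            exact Nat.le_self_pow (by norm_num) _
          _ = ((q + 1) * 2 ^ r) ^ 2 * 8 := by ring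
      refine (Nat.pow_le_pow_left e1 600).trans ?_
      rw [mul_pow, ← pow_mul]
      refine hsq _ _ ?_ ?_
      · rw [← pow_mul]
        refine le_trans (Nat.pow_le_pow_right ?_ (by norm_num)) hqN
        exact Nat.mul_pos (Nat.succ_pos q) (Nat.pow_pos (by norm_num))
      · rw [← pow_mul]
        exact (Nat.pow_le_pow_left (by omega) _).trans (hKpow _ (by omega))
    refine count_num (u := u) (x := 56 * f + 91) hC0 hu4 (hNu hu4) ?_ ?_
    · calc 1200 * K ≤ 1200 * (64 * b * (f + 1)) := Nat.mul_le_mul_left _ hfK.le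
        _ = 76800 * b * (f + 1) := by ring
        _ ≤ 112000 * b * (f + 1) := by
          refine Nat.mul_le_mul_right _ (Nat.mul_le_mul_right _ (by norm_num))
        _ = (56 * (f + 1)) * (2000 * b) := by ring
        _ ≤ (56 * f + 91) * C := Nat.mul_le_mul (by omega) (by omega)
    exact hg H (m / b) f (q + 1) (3 * (r / 2)) hfam (by omega) (by rw [Fintype.card_fin]; exact hfm) hqu (Nat.succ_pos q) S a b'
      hstep hlast
  have mainC : ∀ q r S c b, C * r ≤ K → ((q + 1) * 2 ^ r) ^ C ≤ N → CuttingPlanesWith (KClique G K) q r S c b →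
      (N : ℝ) ^ ((K : ℝ) / C) ≤ S := by
    intro q r S c b hr hqN hc
    obtain ⟨F, hF⟩ := cutting_local G A hc
    refine main q (2 * r) S F (by
      calc C * (2 * r) = 2 * (C * r) := by ring
        _ ≤ 2 * K := Nat.mul_le_mul_left _ hr) ?_ hF
    have hpos : 0 < (q + 1) * 2 ^ r := Nat.mul_pos (Nat.succ_pos q) (Nat.pow_pos (by norm_num))
    calc ((q + 1) * 2 ^ (2 * r)) ^ (3 * 1200) ≤ (((q + 1) * 2 ^ r) ^ 2) ^ (3 * 1200) := by
          refine Nat.pow_le_pow_left ?_ _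
          calc (q + 1) * 2 ^ (2 * r) ≤ (q + 1) ^ 2 * 2 ^ (2 * r) :=
                Nat.mul_le_mul_right _ (Nat.le_self_pow (by norm_num) _)
            _ = ((q + 1) * 2 ^ r) ^ 2 := by ring
      _ = ((q + 1) * 2 ^ r) ^ (2 * (3 * 1200)) := by rw [← pow_mul]
      _ ≤ ((q + 1) * 2 ^ r) ^ C := Nat.pow_le_pow_right hpos (by omega)
      _ ≤ N := hqN
  refine ⟨G, A, h1, h2, fun S R hR => ?_, mainC, fun W q r S F hr hqN hF => ?_⟩
  · obtain ⟨c, b', hc⟩ := resolution_cutting hR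
    refine mainC 2 1 S c b' (by omega) ?_ (cutting_with_one hc)
    exact (Nat.pow_le_pow_left (by omega) _).trans hKN
  · refine main _ r S F (by omega) ?_ hF.basic
    refine le_trans (Nat.pow_le_pow_right ?_ (by omega)) hqN
    exact Nat.mul_pos (Nat.succ_pos _) (Nat.pow_pos (by norm_num))

end Pool.Agent.H35.CL
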