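import Pool.Agent.H35.CL.GrE

/-!
# The clique graph of a lifted CNF

`V c` is the scope of the constraint `c`, which is violated by `z` if `z = σ c` on `V c`.  The parts are those of `(player, c)`; a vertex
of the part of `(player, c)` is a tuple of letters of this player on `V c`.  Two parts of the same player: the tuples agree on the common
coordinates.  The two parts of a constraint: the colours do not violate it.  Everything else is joined.
-/

namespace Pool.Agent.H35.CL

set_option linter.unusedSectionVars false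

open Finset

variable {ι α Γ : Type} [Fintype ι] [DecidableEq ι] [Fintype α] [DecidableEq α] [Fintype Γ] [DecidableEq Γ]

/-- Compatibility of the tuples `f` (in the part `p`) and `f'` (in the part `p'`). -/
def OkC (g : ι → α → α → Bool) (V : Γ → Finset ι) (σ : Γ → ι → Bool) (p p' : Bool × Γ) (f f' : ι → α) : Prop :=
  if p.1 = p'.1 then ∀ j ∈ V p.2, j ∈ V p'.2 → f j = f' j
  else p.2 = p'.2 → ¬ ∀ j ∈ V p.2, (if p.1 then g j (f' j) (f j) else g j (f j) (f' j)) = σ p.2 j

theorem OkC.symm {g : ι → α → α → Bool} {V : Γ → Finset ι} {σ : Γ → ι → Bool} {p p' : Bool × Γ} {f f' : ι → α}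
    (h : OkC g V σ p p' f f') : OkC g V σ p' p f' f := by
  unfold OkC at *
  obtain ⟨b, c⟩ := p
  obtain ⟨b', c'⟩ := p'
  by_cases hp : b = b'
  · subst hp
    rw [if_pos rfl] at h ⊢
    exact fun j hj hj' => (h j hj' hj).symm
  · rw [if_neg (by exact hp)] at h
    rw [if_neg (by exact fun h' => hp h'.symm)]
    intro h2
    have h2' : c' = c := h2
    subst h2'
    have h3 := h rfl
    intro h4
    apply h3
    intro j hj
    have h5 := h4 j hj
    cases b <;> cases b' <;> simp_all

/-- The graph. -/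
def cnfGraph {K N : ℕ} (g : ι → α → α → Bool) (V : Γ → Finset ι) (σ : Γ → ι → Bool) (e : Fin K → Option (Bool × Γ))
    (dec : Bool × Γ → Fin N → Option (ι → α)) : SimpleGraph (Fin K × Fin N) where
  Adj x y := x.1 ≠ y.1 ∧ ∀ p p', e x.1 = some p → e y.1 = some p' → ∃ f f', dec p x.2 = some f ∧ dec p' y.2 = some f' ∧
    OkC g V σ p p' f f'
  symm := ⟨fun x y h => ⟨h.1.symm, fun p p' hp hp' => by
    obtain ⟨f, f', h1, h2, h3⟩ := h.2 p' p hp' hp
    exact ⟨f', f, h2, h1, h3.symm⟩⟩⟩
  loopless := ⟨fun x h => h.1 rfl⟩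

theorem cnfGraph_free {K N : ℕ} [Nonempty α] (g : ι → α → α → Bool) (V : Γ → Finset ι) (σ : Γ → ι → Bool)
    (hun : ∀ z : ι → Bool, ∃ c, ∀ j ∈ V c, z j = σ c j)
    (e : Fin K → Option (Bool × Γ)) (he : ∀ p, ∃ i, e i = some p) (dec : Bool × Γ → Fin N → Option (ι → α)) :
    (cnfGraph g V σ e dec).CliqueFree K := by
  classical
  intro s hs
  obtain ⟨hc, hcard⟩ := hs
  have hinj : Set.InjOn Prod.fst (s : Set (Fin K × Fin N)) := by
    intro x hx y hy hxy
    by_contra hne
    exact (hc hx hy hne).1 hxy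
  have himg : s.image Prod.fst = univ := by
    apply eq_univ_of_card
    rw [card_image_of_injOn hinj, hcard, Fintype.card_fin]
  have hu : ∀ i, ∃ a, (i, a) ∈ s := by
    intro i
    have : i ∈ s.image Prod.fst := by rw [himg]; exact mem_univ _
    obtain ⟨x, hx, rfl⟩ := mem_image.1 this
    exact ⟨x.2, hx⟩
  choose u hu using hu
  have hadj : ∀ i j, i ≠ j → (cnfGraph g V σ e dec).Adj (i, u i) (j, u j) := fun i j hij =>
    hc (hu i) (hu j) fun h => hij (congrArg Prod.fst h)
  choose I hI using he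
  have hIne : ∀ p p', p ≠ p' → I p ≠ I p' := by
    intro p p' h h'
    apply h
    have := hI p
    rw [h', hI p'] at this
    exact (Option.some.inj this).symm
  have hedge : ∀ p p', p ≠ p' → ∃ f f', dec p (u (I p)) = some f ∧ dec p' (u (I p')) = some f' ∧ OkC g V σ p p' f f' :=
    fun p p' h => (hadj _ _ (hIne p p' h)).2 p p' (hI p) (hI p')
  have hF : ∀ p, ∃ f, dec p (u (I p)) = some f := by
    intro p
    obtain ⟨f, _, h, _⟩ := hedge p (!p.1, p.2) (fun h => by
      have := congrArg Prod.fst h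
      simp at this)
    exact ⟨f, h⟩
  choose F hF using hF
  have hOk : ∀ p p', p ≠ p' → OkC g V σ p p' (F p) (F p') := by
    intro p p' h
    obtain ⟨f, f', h1, h3, h4⟩ := hedge p p' h
    rw [hF p] at h1
    rw [hF p'] at h3
    rw [Option.some.inj h1, Option.some.inj h3]
    exact h4
  obtain ⟨a0⟩ := ‹Nonempty α›
  let X : Bool → ι → α := fun pl j => if h : ∃ c, j ∈ V c then F (pl, h.choose) j else a0
  have hX : ∀ pl c, ∀ j ∈ V c, F (pl, c) j = X pl j := by
    intro pl c j hj
    have hex : ∃ c, j ∈ V c := ⟨c, hj⟩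
    simp only [X, dif_pos hex]
    by_cases hcc : c = hex.choose
    · exact congrArg (fun c' => F (pl, c') j) hcc
    · have h1 := hOk (pl, c) (pl, hex.choose) (by simp [hcc])
      unfold OkC at h1
      rw [if_pos rfl] at h1
      exact h1 j hj hex.choose_spec
  obtain ⟨c, hcv⟩ := hun (fun j => g j (X false j) (X true j))
  have h1 := hOk (false, c) (true, c) (by simp)
  unfold OkC at h1
  rw [if_neg (by simp)] at h1
  apply h1 rfl
  intro j hj
  have h2 := hcv j hj
  simp only [Bool.false_eq_true, if_false]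
  rw [hX false c j hj, hX true c j hj]
  exact h2

theorem exists_cnfGraph {K N w : ℕ} [Nonempty α] (V : Γ → Finset ι) (σ : Γ → ι → Bool) (hV : ∀ c, (V c).card ≤ w)
    (hun : ∀ z : ι → Bool, ∃ c, ∀ j ∈ V c, z j = σ c j)
    (hK : 2 * Fintype.card Γ ≤ K) (hN : Fintype.card α ^ w ≤ N) (g : ι → α → α → Bool) :
    ∃ (G : SimpleGraph (Fin K × Fin N)) (A : Finset (Fin K)) (u : (ι → α) → (ι → α) → Fin K → Fin N)
      (e : Fin K → Option (Bool × Γ)),
      (∀ i a b, ¬ G.Adj (i, a) (i, b)) ∧ G.CliqueFree K ∧ (∀ x y y', ∀ i ∈ A, u x y i = u x y' i) ∧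
      (∀ x x' y, ∀ i ∉ A, u x y i = u x' y i) ∧ (∀ i j p, e i = some p → e j = some p → i = j) ∧
      ∀ i j, i ≠ j → ∀ x y, ¬ G.Adj (i, u x y i) (j, u x y j) →
        ∃ pl c, e i = some (pl, c) ∧ e j = some (!pl, c) ∧ ∀ k ∈ V c, g k (x k) (y k) = σ c k := by
  classical
  obtain ⟨e, he, he'⟩ := exists_enum (X := Bool × Γ) K (by simpa using hK)
  obtain ⟨a0⟩ := ‹Nonempty α›
  have hα : 0 < Fintype.card α := Fintype.card_pos_iff.2 ⟨a0⟩
  have hd : ∀ c : Γ, ∃ d : Fin N → Option (ι → α), ∀ f : ι → α, ∃ i f', d i = some f' ∧ ∀ j ∈ V c, f' j = f j := by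
    intro c
    obtain ⟨d, hd, _⟩ := exists_enum (X := V c → α) N (by
      rw [Fintype.card_fun, Fintype.card_coe]
      exact (Nat.pow_le_pow_right hα (hV c)).trans hN)
    refine ⟨fun i => (d i).map (fun f j => if h : j ∈ V c then f ⟨j, h⟩ else a0), fun f => ?_⟩
    obtain ⟨i, hi⟩ := hd (fun j => f j.1)
    refine ⟨i, fun j => if h : j ∈ V c then f j else a0, ?_, fun j hj => ?_⟩
    · show Option.map _ (d i) = _
      rw [hi]
      rfl
    · simp only [dif_pos hj]
  choose d hd using hd
  have henc : ∀ (c : Γ) (f : ι → α), ∃ i, ∃ f', d c i = some f' ∧ ∀ j ∈ V c, f' j = f j := hd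
  choose enc dc henc1 henc2 using henc
  have hN0 : 0 < N := lt_of_lt_of_le (pow_pos hα w) hN
  let L : (ι → α) → (ι → α) → Bool → ι → α := fun x y pl => if pl then y else x
  let u : (ι → α) → (ι → α) → Fin K → Fin N := fun x y i =>
    match e i with
    | some p => enc p.2 (L x y p.1)
    | none => ⟨0, hN0⟩
  have hus : ∀ x y i p, e i = some p → u x y i = enc p.2 (L x y p.1) := by
    intro x y i p h
    simp only [u, h]
  have hun' : ∀ x y i, e i = none → u x y i = ⟨0, hN0⟩ := by
    intro x y i h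
    simp only [u, h]
  have : Nonempty α := ⟨a0⟩
  refine ⟨cnfGraph g V σ e (fun p => d p.2), univ.filter (fun i => ∃ c, e i = some (false, c)), u, e,
    fun i a b h => h.1 rfl, cnfGraph_free g V σ hun e he _, ?_, ?_, he', ?_⟩
  · intro x y y' i hi
    obtain ⟨c, hc⟩ := (mem_filter.1 hi).2
    rw [hus _ _ _ _ hc, hus _ _ _ _ hc]
    rfl
  · intro x x' y i hi
    have hi' : ¬ ∃ c, e i = some (false, c) := fun h => hi (mem_filter.2 ⟨mem_univ _, h⟩)
    rcases hei : e i with _ | ⟨_ | _, c⟩
    · rw [hun' _ _ _ hei, hun' _ _ _ hei]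
    · exact absurd ⟨c, hei⟩ hi'
    · rw [hus _ _ _ _ hei, hus _ _ _ _ hei]
      rfl
  · intro i j hij x y hnot
    by_contra hcon
    apply hnot
    refine ⟨hij, fun p p' hp hp' => ⟨dc p.2 (L x y p.1), dc p'.2 (L x y p'.1), ?_, ?_, ?_⟩⟩
    · rw [show ((i, u x y i) : Fin K × Fin N).2 = u x y i from rfl, hus _ _ _ _ hp]
      exact henc1 _ _
    · rw [show ((j, u x y j) : Fin K × Fin N).2 = u x y j from rfl, hus _ _ _ _ hp']
      exact henc1 _ _
    · unfold OkC
      obtain ⟨b, pc⟩ := p
      obtain ⟨b', pc'⟩ := p'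
      by_cases h1 : b = b'
      · subst h1
        rw [if_pos rfl]
        intro k hk hk'
        rw [henc2 _ _ k hk, henc2 _ _ k hk']
      · rw [if_neg (by exact h1)]
        intro h3
        have h3' : pc = pc' := h3
        subst h3'
        intro hv
        apply hcon
        refine ⟨b, pc, hp, ?_, fun k hk => ?_⟩
        · rw [hp']
          congr 2
          cases b <;> cases b' <;> simp_all
        · have h4 := hv k hk
          have h5 := henc2 pc (L x y b) k hk
          have h6 := henc2 pc (L x y b') k hk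
          simp only at h4
          rw [h5, h6] at h4
          cases b
          · cases b'
            · exact absurd rfl h1
            · simpa [L] using h4
          · cases b'
            · simpa [L] using h4
            · exact absurd rfl h1

/-- The constraints both of whose parts are in `J`. -/
theorem card_bothC {K : ℕ} (e : Fin K → Option (Bool × Γ)) (J : Finset (Fin K)) :
    ∃ C : Finset Γ, 2 * C.card ≤ J.card ∧
      ∀ i ∈ J, ∀ j ∈ J, ∀ pl c, e i = some (pl, c) → e j = some (!pl, c) → c ∈ C := by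
  classical
  let C : Finset Γ := univ.filter (fun c => ∀ pl, ∃ i ∈ J, e i = some (pl, c))
  refine ⟨C, ?_, ?_⟩
  · have h1 : (C ×ˢ (univ : Finset Bool)).image (fun p => some (p.2, p.1)) ⊆ J.image e := by
      intro o ho
      obtain ⟨⟨c, pl⟩, hp, rfl⟩ := mem_image.1 ho
      obtain ⟨i, hi, hei⟩ := (mem_filter.1 (mem_product.1 hp).1).2 pl
      exact mem_image.2 ⟨i, hi, hei⟩
    have h2 : ((C ×ˢ (univ : Finset Bool)).image (fun p => some (p.2, p.1))).card = C.card * 2 := by
      rw [card_image_of_injective, card_product, card_univ, Fintype.card_bool]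
      rintro ⟨c, pl⟩ ⟨c', pl'⟩ h
      have h3 := Option.some.inj h
      rw [Prod.mk.injEq] at h3 ⊢
      exact ⟨h3.2, h3.1⟩
    have h3 := (card_le_card h1).trans card_image_le
    omega
  · intro i hi j hj pl c h1 h2
    refine mem_filter.2 ⟨mem_univ _, fun pl' => ?_⟩
    by_cases h : pl' = pl
    · exact ⟨i, hi, by rw [h]; exact h1⟩
    · have : pl' = !pl := by cases pl' <;> cases pl <;> simp_all
      exact ⟨j, hj, by rw [this]; exact h2⟩

end Pool.Agent.H35.CL
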