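import Pool.Agent.H35.CK.Gr
import Pool.Agent.H1.CL.ReJ
import Pool.Agent.H35.CL.Defs

/-!
# Local refutations give triangles over the letters
-/

namespace Pool.Agent.H35.CL

open Finset

set_option linter.unusedSectionVars false

variable {ι α Γ : Type} [Fintype ι] [DecidableEq ι] [Fintype α] [DecidableEq α] [Fintype Γ] [DecidableEq Γ]

theorem local_triangles {K N w q r S : ℕ} [Nonempty α] {V : Γ → Finset ι} {σ : Γ → ι → Bool}
    {H : Finset ι → (ι → Bool) → Prop} (hV : ∀ c, (V c).card ≤ w)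
    (hflex : ∀ C : Finset Γ, 2 * C.card ≤ r → Flex H (fun z => ∃ c ∈ C, ∀ j ∈ V c, z j = σ c j))
    {g : ι → α → α → Bool} {G : SimpleGraph (Fin K × Fin N)} {A : Finset (Fin K)}
    {u : (ι → α) → (ι → α) → Fin K → Fin N} {e : Fin K → Option (Bool × Γ)}
    (hA : ∀ x y y', ∀ i ∈ A, u x y i = u x y' i) (hB : ∀ x x' y, ∀ i ∉ A, u x y i = u x' y i)
    (hu : ∀ i j, i ≠ j → ∀ x y, ¬ G.Adj (i, u x y i) (j, u x y j) →
        ∃ pl c, e i = some (pl, c) ∧ e j = some (!pl, c) ∧ ∀ k ∈ V c, g k (x k) (y k) = σ c k)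
    {f : Fin S → (Fin K → Fin N) → ℝ} (h : LocalRefutation G A q r S f) :
    ∃ a b : ℕ → (ι → α) → ℝ, (∀ s < S, ∃ M' : Finset ℕ, M'.card ≤ q ∧ (∀ s' ∈ M', s' < s) ∧
      ∃ (viol : (ι → Bool) → Prop) (U : Finset ι), U.card ≤ w * (r / 2) ∧
      (∀ ρ ρ', (∀ j ∈ U, ρ j = ρ' j) → viol ρ → viol ρ') ∧
      Flex H viol ∧ ∀ x y, a s x < b s y → (∃ s' ∈ M', a s' x < b s' y) ∨ viol (col g x y)) ∧
      ∃ r < S, ∀ x y, a r x < b r y := by
  classical
  obtain ⟨o⟩ : Nonempty (ι → α) := inferInstance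
  choose f' f'' hf' hf'' hf using h.split
  let a : ℕ → (ι → α) → ℝ := fun s x => if hs : s < S then f' ⟨s, hs⟩ (u x o) else 0
  let b : ℕ → (ι → α) → ℝ := fun s y => if hs : s < S then - f'' ⟨s, hs⟩ (u o y) else 0
  have hab : ∀ (s : Fin S) x y, a s x < b s y ↔ f s (u x y) < 0 := by
    intro s x y
    have h1 : f' s (u x o) = f' s (u x y) := hf' s _ _ fun i hi => hA x o y i hi
    have h3 : f'' s (u o y) = f'' s (u x y) := hf'' s _ _ fun i hi => hB o x y i hi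
    simp only [a, b, s.2, dif_pos, Fin.eta]
    rw [h1, h3, hf s (u x y)]
    constructor <;> intro h <;> linarith
  refine ⟨a, b, fun s hs => ?_, ?_⟩
  · obtain ⟨J, P, hJ, hP, hPs, hstep⟩ := h.step ⟨s, hs⟩
    obtain ⟨C, hC, hCJ⟩ := card_bothC e J
    refine ⟨P.image Fin.val, card_image_le.trans hP, fun s' hs' => ?_,
      fun z => ∃ c ∈ C, ∀ j ∈ V c, z j = σ c j, C.biUnion V, ?_, ?_, hflex C (hC.trans hJ), fun x y hxy => ?_⟩
    · obtain ⟨p, hp, rfl⟩ := mem_image.1 hs'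
      exact hPs p hp
    · calc (C.biUnion V).card ≤ C.card * w := card_biUnion_le_card_mul _ _ _ fun c _ => hV c
        _ = w * C.card := mul_comm _ _
        _ ≤ w * (r / 2) := Nat.mul_le_mul_left _ (by omega)
    · rintro ρ ρ' hρ ⟨c, hc, hv⟩
      exact ⟨c, hc, fun j hj => by rw [← hρ j (mem_biUnion.2 ⟨c, hc, hj⟩)]; exact hv j hj⟩
    · by_cases hadj : ∀ i ∈ J, ∀ j ∈ J, i ≠ j → G.Adj (i, u x y i) (j, u x y j)
      · left
        obtain ⟨p, hp, hlt⟩ := hstep _ ((hab ⟨s, hs⟩ x y).1 hxy) hadj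
        exact ⟨p.1, mem_image.2 ⟨p, hp, rfl⟩, (hab p x y).2 hlt⟩
      · right
        push Not at hadj
        obtain ⟨i, hi, j, hj, hij, hnot⟩ := hadj
        obtain ⟨pl, c, h3, h4, h5⟩ := hu i j hij x y hnot
        exact ⟨c, hCJ i hi j hj pl c h3 h4, h5⟩
  · obtain ⟨r, hr⟩ := h.last
    exact ⟨r, r.2, fun x y => (hab r x y).2 (hr _)⟩

end Pool.Agent.H35.CL
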